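import Pool.Agent.AT.SU.Defs

/-!
# Trees, colored `SU(n)` invariants with all orientations: definitions at the roots of unity

The strands of the twist region `i` are parallel if `P i = true`, antiparallel otherwise. The index of
an edge is `κ = k + n - 2`; `M = N + g`, `h = min g (n - g)`.
-/

set_option autoImplicit false

namespace Pool.Agent.AT.SU.OR

open Pool.Agent.H63.VC hiding ext
open Pool.Agent.H63.VC3 Pool.Agent.H63.VC7 Pool.Agent.H25.RK Pool.Agent.S3 Pool.Agent.H63.GO
open Pool.Agent.S4
open Complex Filter Topology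

variable {m : ℕ} [Tr m]

/-- The type of an edge. -/
def et (P : Fin (m + 1) → Bool) (j : Fin m) : Bool := P (Tr.par j) || P j.succ

/-- The number of the adjacent nodes of the other type. -/
def sn (P : Fin (m + 1) → Bool) (i : Fin (m + 1)) : ℕ := ((ie i).filter fun j => et P j).card

/-- The invariant at the root of unity, up to simple factors. -/
noncomputable def JG4 (P : Fin (m + 1) → Bool) (r : Fin (m + 1) → ℝ) (n h M : ℕ) : ℂ :=
  ∑ k ∈ Fintype.piFinset (fun _ : Fin m => Finset.range (M + 2 - n)),
    (∏ j, (w4 n h (et P j) M (k j) : ℂ)) * ∏ i, DG4 (r i) n h M (P i) (sn P i) (ie i) k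

/-- The part of the invariant with the multi-indices in the product of the sets `S j`. -/
noncomputable def JS4 (P : Fin (m + 1) → Bool) (r : Fin (m + 1) → ℝ) (n h M : ℕ)
    (S : Fin m → Finset ℕ) : ℂ :=
  ∑ κ ∈ Fintype.piFinset S, (∏ j, (w4 n h (et P j) M (κ j - (n - 2)) : ℂ)) *
    ∏ i, DG4 (r i) n h M (P i) (sn P i) (ie i) (fun j => κ j - (n - 2))

/-- The part of the invariant with all indices at least `k0 M`. -/
noncomputable def J04 (P : Fin (m + 1) → Bool) (r : Fin (m + 1) → ℝ) (n h M : ℕ) : ℂ :=
  JS4 P r n h M (fun _ => Finset.Ico (k0 M) M)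

end Pool.Agent.AT.SU.OR
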