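import Pool.Agent.OR.G.Defs
import Pool.Agent.AT.SU.LowB

/-!
# Trees, `SU(n)`: the small indices, the integrand and its bounds

At a vertex with an edge with small index: a lattice sum; one of its edges with small index has the
slot `ql4`, all others `sk4`. The growth at these vertices is bounded by `0`.
-/

set_option autoImplicit false
set_option linter.unusedSectionVars false

namespace Pool.Agent.AT.SU.OR

open Pool.Agent.H63.VC hiding ext
open Pool.Agent.H63.VC3 Pool.Agent.H63.VC7 Pool.Agent.H25.RK Pool.Agent.S3 Pool.Agent.H63.GO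
open Pool.Agent.AT Pool.Agent.S4 Pool.Agent.S4.LowG
open Complex Filter Topology MeasureTheory
open scoped BigOperators Interval

variable {m : ℕ} [Tr m] {C : Cfg m} {n h : ℕ}

/-! ### The integrand -/

open Classical in
/-- The points of the contours. -/
noncomputable def pt4 (C : Cfg m) (P : Fin (m + 1) → Bool) (v1 : Fin (m + 1) → ℝ) (ε : ℝ)
    (L : Finset (Fin m)) (n M : ℕ) (x : C.Op → ℝ) (i : Fin (m + 1)) : ℂ :=
  if h : i ∈ C.Op then
    (if C.Tv L i then vT4 n (P i) M (x ⟨i, h⟩) else C.gm v1 ε i (x ⟨i, h⟩)) else 0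

open Classical in
/-- The vertex factors. -/
noncomputable def g4 (C : Cfg m) (P : Fin (m + 1) → Bool) (v1 : Fin (m + 1) → ℝ) (ε : ℝ)
    (L : Finset (Fin m)) (n h M : ℕ) (i : Fin (m + 1)) (x : ℝ) : ℂ :=
  if C.Tv L i then
    (if 0 ≤ x ∧ x < (kX n (P i) M : ℕ) then gl4 (C.r i) n h (P i) (sn P i) M ⌊x⌋₊ else 0)
  else (-(4 * Real.pi * I) * M ^ 2) *
    (gv4 (C.r i) n h (P i) (sn P i) M (C.gm v1 ε i x) * C.gm' v1 ε i x)

open Classical in
/-- The slots of the open vertices. -/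
noncomputable def s4 (C : Cfg m) (P : Fin (m + 1) → Bool) (v1 : Fin (m + 1) → ℝ) (ε : ℝ)
    (L : Finset (Fin m)) (n h M : ℕ) (i : Fin (m + 1)) (j : Fin m) (κ : ℕ) (x : ℝ) : ℂ :=
  if C.Tv L i then (if SU.jc L i = some j then ql4 n h (P i) M κ (Xc4 n (P i) M x)
    else sk4 n h M (P i) κ (.op (vT4 n (P i) M x)))
  else sk4 n h M (P i) κ (.op (C.gm v1 ε i x))

/-- The slots of the closed vertices. -/
noncomputable def s40 (C : Cfg m) (P : Fin (m + 1) → Bool) (n h M : ℕ) (i : Fin (m + 1))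
    (_ : Fin m) (κ : ℕ) : ℂ :=
  sk4 n h M (P i) κ (.cl (C.s i))

/-- The lattice summand. -/
noncomputable def FT4 (C : Cfg m) (P : Fin (m + 1) → Bool) (L : Finset (Fin m))
    (n h M : ℕ) (i : Fin (m + 1)) (k : Fin m → ℕ) (X : ℕ) : ℂ :=
  gl4 (C.r i) n h (P i) (sn P i) M X *
    ∏ j ∈ inc (Tr.par (m := m)) Fin.succ i, (if SU.jc L i = some j then
      ql4 n h (P i) M (k j) X
      else sk4 n h M (P i) (k j) (.op ((vl (nn n (P i)) M X : ℝ) : ℂ)))

variable {P : Fin (m + 1) → Bool} {v1 : Fin (m + 1) → ℝ} {lam : Fin m → Fin (m + 1) → ℝ}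
  {t : Fin (m + 1) → ℂ} {g0 : ℝ} {ρ : Fin (m + 1) → ℝ}

theorem gT4_eq {ε : ℝ} {L : Finset (Fin m)} {M : ℕ} {i : Fin (m + 1)} (hT : C.Tv L i)
    (k : Fin m → ℕ) : (fun x : ℝ => g4 C P v1 ε L n h M i x *
      ∏ j ∈ inc (Tr.par (m := m)) Fin.succ i, s4 C P v1 ε L n h M i j (k j) x) =
    fun x : ℝ => if 0 ≤ x ∧ x < (kX n (P i) M : ℕ) then FT4 C P L n h M i k ⌊x⌋₊ else 0 := by
  funext x
  unfold g4 s4 FT4
  simp only [if_pos hT]
  by_cases hx : 0 ≤ x ∧ x < (kX n (P i) M : ℕ)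
  · rw [if_pos hx, if_pos hx]
    have e : Xc4 n (P i) M x = ⌊x⌋₊ := by unfold Xc4; rw [if_pos hx.2]
    congr 1
    refine Finset.prod_congr rfl fun j _ => ?_
    unfold vT4
    rw [e]
  · rw [if_neg hx, if_neg hx, zero_mul]

/-- The part of the invariant as an integral. -/
theorem JS4_eq2 (hn : 2 ≤ n) (hh : 1 ≤ h) (hh' : 2 * h ≤ n) (hC : C.Crit)
    (hs : ∀ i ∉ C.Op, C.s i = 1 ∨ C.s i = -1) (hr : ∀ i, i ∉ C.Op → C.r i = C.s i)
    (hE : C.Edg v1 lam)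
    (hinc : ∀ i ∉ C.Op, ∃ j, inc (Tr.par (m := m)) Fin.succ i = {j})
    (hP : ∀ i, i ∉ C.Op → P i = false → sn P i = 0) {ε : ℝ} (hε : 0 < ε)
    (L : Finset (Fin m)) {M : ℕ} (hM : 5 * n ≤ M) :
    JS4 P C.r n h M (SL4 n M L) = ∫ x : C.Op → ℝ, (∏ i : C.Op, g4 C P v1 ε L n h M i (x i)) *
      ∏ j : Fin m, ∑ κ ∈ SL4 n M L j, (w4 n h (et P j) M (κ - (n - 2)) : ℂ) *
        (sgx C.Op (s4 C P v1 ε L n h M) (s40 C P n h M) x (Tr.par j) j κ *
          sgx C.Op (s4 C P v1 ε L n h M) (s40 C P n h M) x j.succ j κ) := by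
  have hctr : ∀ i ∈ C.Op, Ctr (C.gm v1 ε i) (C.gm' v1 ε i) := fun i hi =>
    gam_ctr (hC.th0 i hi) (hC.th1 i hi) (hE.v0 i hi) (hE.vh i hi) hε
  have hM' : n + 2 ≤ M := by omega
  have nT : ∀ i, ¬ C.Tv L i → ∀ k ∈ Fintype.piFinset (SL4 n M L), (fun x : ℝ =>
      g4 C P v1 ε L n h M i x *
        ∏ j ∈ inc (Tr.par (m := m)) Fin.succ i, s4 C P v1 ε L n h M i j (k j) x) =
      fun x => (-(4 * Real.pi * I) * M ^ 2) * (NT4 (C.r i) n h M (P i) (sn P i)
        (inc (Tr.par (m := m)) Fin.succ i) (fun j => k j - (n - 2)) (C.gm v1 ε i x) * om (nn n (P i)) M (C.gm v1 ε i x) *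
          C.gm' v1 ε i x) := by
    intro i hT k hk
    funext x
    unfold g4 s4 gv4 NT4
    simp only [if_neg hT]
    have : ∀ j ∈ inc (Tr.par (m := m)) Fin.succ i,
        sk4 n h M (P i) (k j) (.op (C.gm v1 ε i x)) =
        q4 M (dd n h (P i)) (M + 1 - n - (k j - (n - 2))) (C.gm v1 ε i x) := by
      intro j _
      have h1 := SL4_mem hM hk j
      have e : M + 1 - n - (k j - (n - 2)) = M - 1 - k j := by omega
      rw [e]
      rfl
    rw [Finset.prod_congr rfl this]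
    ring
  unfold JS4
  refine int_gen4 C.Op (g4 C P v1 ε L n h M) (s4 C P v1 ε L n h M) (s40 C P n h M)
    (fun j κ => (w4 n h (et P j) M (κ - (n - 2)) : ℂ))
    (fun i κ => DG4 (C.r i) n h M (P i) (sn P i) (inc (Tr.par (m := m)) Fin.succ i) (fun j => κ j - (n - 2)))
    (SL4 n M L) ?_ ?_ ?_
  · intro i hi k hk
    by_cases hT : C.Tv L i
    · rw [gT4_eq hT]
      exact step_integrable _ _
    · rw [nT i hT k hk]
      exact (DG4_ctr hn hh hh' (C.r i) (P i) (sn P i) hM' (inc (Tr.par (m := m)) Fin.succ i) _ (hctr i hi)).1.const_mul _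
  · intro i hi k hk
    by_cases hT : C.Tv L i
    · rw [gT4_eq hT, step_integral]
      obtain ⟨j0, hj, hj0, hji⟩ := SU.jc_some hT.2
      have hk0 := SL4_low hk hj0
      refine (DG4_lat hn hh hh' (C.r i) (P i) (sn P i) hM (A := inc (Tr.par (m := m)) Fin.succ i) k
        (fun j _ => SL4_mem hM hk j) (j0 := j0) hji hk0).trans ?_
      refine Finset.sum_congr rfl fun X _ => ?_
      unfold FT4
      congr 1
      rw [← Finset.mul_prod_erase _ _ hji, if_pos hj]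
      congr 1
      refine Finset.prod_congr rfl fun j hj' => ?_
      rw [if_neg]
      intro hj''
      rw [hj, Option.some.injEq] at hj''
      exact Finset.ne_of_mem_erase hj' hj''.symm
    · rw [nT i hT k hk, integral_const_mul]
      exact (DG4_ctr hn hh hh' (C.r i) (P i) (sn P i) hM' (inc (Tr.par (m := m)) Fin.succ i) _ (hctr i hi)).2
  · intro i hi k hk
    obtain ⟨j, hj⟩ := hinc i hi
    obtain ⟨h1, h2⟩ := SL4_mem hM hk j
    have e : inc (Tr.par (m := m)) Fin.succ i = {j} := hj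
    show DG4 (C.r i) n h M (P i) (sn P i) (inc (Tr.par (m := m)) Fin.succ i) (fun j => k j - (n - 2)) = _
    rw [e, Finset.prod_singleton, hr i hi]
    exact DG4_cl hn hh hh' (P i) (sn P i) (hP i hi) (hs i hi) h1 h2 j _ rfl

/-! ### The bounds of the factors -/

theorem sgx4_high {ε : ℝ} {L : Finset (Fin m)} {M : ℕ} {j : Fin m} (hj : j ∉ L)
    (x : C.Op → ℝ) (i : Fin (m + 1)) (κ : ℕ) :
    sgx C.Op (s4 C P v1 ε L n h M) (s40 C P n h M) x i j κ =
      sk4 n h M (P i) κ (C.sv i (pt4 C P v1 ε L n M x i)) := by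
  unfold sgx Cfg.sv pt4 s4 s40
  by_cases h' : i ∈ C.Op
  · rw [dif_pos h', if_pos h', dif_pos h']
    by_cases hT : C.Tv L i
    · rw [if_pos hT, if_neg (fun hc => hj (SU.jc_mem hc)), if_pos hT]
    · rw [if_neg hT, if_neg hT]
  · rw [dif_neg h', if_neg h']

theorem K4_high {ε : ℝ} {L : Finset (Fin m)} {M : ℕ} {j : Fin m} (hj : j ∉ L)
    (x : C.Op → ℝ) :
    ∑ κ ∈ SL4 n M L j, (w4 n h (et P j) M (κ - (n - 2)) : ℂ) *
        (sgx C.Op (s4 C P v1 ε L n h M) (s40 C P n h M) x (Tr.par j) j κ *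
          sgx C.Op (s4 C P v1 ε L n h M) (s40 C P n h M) x j.succ j κ) =
      Kq n h (et P j) (P (Tr.par j)) (P j.succ) M
        (C.sv (Tr.par j) (pt4 C P v1 ε L n M x (Tr.par j)))
        (C.sv j.succ (pt4 C P v1 ε L n M x j.succ)) := by
  unfold Kq SL4
  rw [if_neg hj]
  refine Finset.sum_congr rfl fun κ _ => ?_
  rw [sgx4_high hj, sgx4_high hj]

/-- The slots of an edge with small index. -/
theorem slot_low (hn : 2 ≤ n) (hs : ∀ i ∉ C.Op, C.s i = 1 ∨ C.s i = -1) (ε : ℝ)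
    {L : Finset (Fin m)} {M : ℕ} (hM : 5 * n ≤ M) {j : Fin m} (hj : j ∈ L) (x : C.Op → ℝ)
    {i : Fin (m + 1)} (hi : i = (Tr.par j) ∨ i = j.succ) :
    ∃ a : SlL, a.ok n (P i) M ∧ (∀ κ, sgx C.Op (s4 C P v1 ε L n h M) (s40 C P n h M) x i j κ =
      a.val n h (P i) M κ) ∧ a.gr n (P i) M ≤ 0 := by
  by_cases hO : i ∈ C.Op
  · have hT : C.Tv L i := Tv_of hj hO hi
    have e : 0 ≤ s1 ((vl (nn n (P i)) M (Xc4 n (P i) M (x ⟨i, hO⟩)) : ℝ) : ℂ) :=
      s1_rlow (vT4_mem hn (kX_pos (P := P i) hn hM) (x ⟨i, hO⟩))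
    by_cases hjc : SU.jc L i = some j
    · refine ⟨.lat (Xc4 n (P i) M (x ⟨i, hO⟩)), Xc4_lt (kX_pos hn hM) _, fun κ => ?_,
        neg_nonpos.2 e⟩
      unfold sgx s4
      rw [dif_pos hO, if_pos hT, if_pos hjc]
      rfl
    · refine ⟨.op (Xc4 n (P i) M (x ⟨i, hO⟩)), Xc4_lt (kX_pos hn hM) _, fun κ => ?_,
        neg_nonpos.2 e⟩
      unfold sgx s4
      rw [dif_pos hO, if_pos hT, if_neg hjc]
      rfl
  · refine ⟨.cl (C.s i), hs i hO, fun κ => ?_, le_rfl⟩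
    unfold sgx s40
    rw [dif_neg hO]
    rfl

/-- The kernels with small index. -/
theorem K4_low (hn : 2 ≤ n) (hh : 1 ≤ h) (hh' : 2 * h ≤ n)
    (hs : ∀ i ∉ C.Op, C.s i = 1 ∨ C.s i = -1) :
    ∃ D : ℝ, 0 < D ∧ ∃ p : ℕ, ∀ᶠ M : ℕ in atTop, ∀ (ε : ℝ) (L : Finset (Fin m)), ∀ j ∈ L,
      ∀ x : C.Op → ℝ, ‖∑ κ ∈ SL4 n M L j, (w4 n h (et P j) M (κ - (n - 2)) : ℂ) *
        (sgx C.Op (s4 C P v1 ε L n h M) (s40 C P n h M) x (Tr.par j) j κ *
          sgx C.Op (s4 C P v1 ε L n h M) (s40 C P n h M) x j.succ j κ)‖ ≤ D * (M : ℝ) ^ p := by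
  obtain ⟨-, -, D, hD, p, hb⟩ := low_choose (J := Fin m) (P := fun j _ D p =>
      ∀ᶠ M : ℕ in atTop, ∀ κ : ℕ, n - 2 ≤ κ → κ < k0 M → ∀ a b : SlL, a.ok n (P (Tr.par j)) M →
        b.ok n (P j.succ) M → ‖(w4 n h (et P j) M (κ - (n - 2)) : ℂ) *
          (a.val n h (P (Tr.par j)) M κ * b.val n h (P j.succ) M κ)‖ ≤
          D * (M : ℝ) ^ p * Real.exp (M * (a.gr n (P (Tr.par j)) M + b.gr n (P j.succ) M)))
    (fun j η η' D D' p p' h1 hD0 _ hDD hpp => by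
      filter_upwards [h1, eventually_ge_atTop 1] with M h1 hM κ k1 k2 a b ha hb
      exact (h1 κ k1 k2 a b ha hb).trans (low_pow_le (by exact_mod_cast hM) hD0 hDD hpp))
    (fun j => by
      obtain ⟨D, hD, p, h1⟩ := low_term hn hh hh' (et P j) (P (Tr.par j)) (P j.succ)
      exact ⟨1, one_pos, D, hD, p, h1⟩)
  refine ⟨D, hD, p + 1, ?_⟩
  filter_upwards [eventually_all.2 hb, eventually_ge_atTop (5 * n)] with M hb hM ε L j hj x
  obtain ⟨a, a1, a2, a3⟩ := slot_low (P := P) (v1 := v1) (h := h) hn hs ε hM hj x (Or.inl rfl)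
  obtain ⟨b, b1, b2, b3⟩ := slot_low (P := P) (v1 := v1) (h := h) hn hs ε hM hj x (Or.inr rfl)
  have hS : SL4 n M L j = Finset.Ico (n - 2) (k0 M) := by unfold SL4; rw [if_pos hj]
  have hE : Real.exp (M * (a.gr n (P (Tr.par j)) M + b.gr n (P j.succ) M)) ≤ 1 := by
    rw [Real.exp_le_one_iff]
    exact mul_nonpos_of_nonneg_of_nonpos (Nat.cast_nonneg M) (by linarith)
  have key : ∀ κ ∈ SL4 n M L j, ‖(w4 n h (et P j) M (κ - (n - 2)) : ℂ) *
        (sgx C.Op (s4 C P v1 ε L n h M) (s40 C P n h M) x (Tr.par j) j κ *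
          sgx C.Op (s4 C P v1 ε L n h M) (s40 C P n h M) x j.succ j κ)‖ ≤ D * (M : ℝ) ^ p := by
    intro κ hκ
    rw [hS, Finset.mem_Ico] at hκ
    rw [a2, b2]
    exact (hb j κ hκ.1 hκ.2 a b a1 b1).trans (mul_le_of_le_one_right (by positivity) hE)
  refine (norm_sum_le_of_le _ key).trans ?_
  rw [Finset.sum_const, nsmul_eq_mul]
  have h8 : ((SL4 n M L j).card : ℝ) ≤ M := by
    rw [hS, Nat.card_Ico]
    have : k0 M - (n - 2) ≤ M := (Nat.sub_le _ _).trans (k0_le M)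
    exact_mod_cast this
  have hp : (0 : ℝ) ≤ D * (M : ℝ) ^ p := by positivity
  calc ((SL4 n M L j).card : ℝ) * (D * (M : ℝ) ^ p)
      ≤ M * (D * (M : ℝ) ^ p) := mul_le_mul_of_nonneg_right h8 hp
    _ = _ := by ring

/-- The vertex factors. -/
theorem g4_bound (hn : 2 ≤ n) (hh : 1 ≤ h) (hh' : 2 * h ≤ n) (hC : C.Crit)
    (hE : C.Edg v1 lam) {ε : ℝ} (hε : 0 < ε)
    (hbl : ∀ i ∈ C.Op, ε ≤ bl (C.θ i) (v1 i)) (L : Finset (Fin m)) :
    ∃ D : ℝ, 0 < D ∧ ∃ p : ℕ, ∀ M : ℕ, 1 ≤ M → ∀ (i : C.Op) (x : ℝ),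
      ‖g4 C P v1 ε L n h M i x‖ ≤ D * (M : ℝ) ^ p * Real.exp (M * ga2 C v1 ε L i x) *
        w2 C v1 ε L i x := by
  have hpi := Real.pi_pos
  obtain ⟨-, -, D, hD, p, hb⟩ := low_choose (J := C.Op) (P := fun i _ D p => ∀ M : ℕ, 1 ≤ M →
      ∀ x : ℝ, ‖g4 C P v1 ε L n h M i x‖ ≤ D * (M : ℝ) ^ p *
        Real.exp (M * ga2 C v1 ε L i x) * w2 C v1 ε L i x)
    (fun i η η' D D' p p' h1 hD0 _ hDD hpp M hM x => by
      refine (h1 M hM x).trans (mul_le_mul_of_nonneg_right ?_ (w2_nn ε L i x))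
      exact low_pow_le (by exact_mod_cast hM) hD0 hDD hpp)
    (fun i => by
      by_cases hT : C.Tv L i
      · obtain ⟨D, hD, h1⟩ := gl4_bound hn hh hh' (P i) (sn P i)
        refine ⟨1, one_pos, 2 * D, by positivity, 2, fun M hM x => ?_⟩
        have hMr : (1 : ℝ) ≤ M := by exact_mod_cast hM
        unfold g4 ga2 w2
        rw [if_pos hT, if_pos hT, if_pos hT, mul_zero, Real.exp_zero, mul_one]
        have h2 : ‖(if 0 ≤ x ∧ x < (kX n (P i) M : ℕ) then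
            gl4 (C.r i) n h (P i) (sn P i) M ⌊x⌋₊ else 0)‖ ≤
            D * (if 0 ≤ x ∧ x < (M : ℝ) then (1 : ℝ) else 0) := by
          by_cases hx : 0 ≤ x ∧ x < (kX n (P i) M : ℕ)
          · have hx' : 0 ≤ x ∧ x < (M : ℝ) := by
              refine ⟨hx.1, hx.2.trans_le ?_⟩
              exact_mod_cast kX_le n (P i) M
            rw [if_pos hx, if_pos hx', mul_one]
            exact h1 _ _ _
          · rw [if_neg hx, norm_zero]
            split_ifs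
            · linarith
            · linarith
        have h3 := lat_weight M x
        have h4 : (1 : ℝ) ≤ (M : ℝ) ^ 2 := one_le_pow₀ hMr
        have h5 : 0 < (1 + x ^ 2)⁻¹ := by positivity
        calc _ ≤ D * (if 0 ≤ x ∧ x < (M : ℝ) then (1 : ℝ) else 0) := h2
          _ ≤ D * (((M : ℝ) ^ 2 + 1) * (1 + x ^ 2)⁻¹) := mul_le_mul_of_nonneg_left h3 hD.le
          _ ≤ D * ((2 * (M : ℝ) ^ 2) * (1 + x ^ 2)⁻¹) := by gcongr; linarith
          _ = _ := by ring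
      · obtain ⟨D, hD, p, hb⟩ := gv4_bound hn hh hh' (P i) (sn P i) (κ := 2 * ε)
          (B := bl (C.θ i) 0) (by linarith)
        refine ⟨1, one_pos, 4 * Real.pi * D, by positivity, p + 2, fun M hM x => ?_⟩
        have hi := i.2
        obtain ⟨a1, a2, a3⟩ := gam_im (hC.th0 i hi) (hC.th1 i hi) (hE.v0 i hi) (hE.vh i hi) hε
          (hbl i hi) x
        have hx := hb M (C.r i) (C.gm v1 ε i x) hM a1
          (gam_re (hC.th0 i hi) (hC.th1 i hi) (hE.v0 i hi) (hE.vh i hi) hε x)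
          (slope_of_height hε a3 a1.le) a2
        unfold g4 ga2 w2
        rw [if_neg hT, if_neg hT, if_neg hT, norm_mul]
        have e : ‖(-(4 * (Real.pi : ℂ) * I) * (M : ℂ) ^ 2)‖ = 4 * Real.pi * (M : ℝ) ^ 2 := by
          rw [norm_mul, norm_neg, norm_mul, norm_mul, norm_I, norm_pow, norm_natCast, mul_one,
            norm_real, Real.norm_eq_abs, abs_of_pos Real.pi_pos]
          norm_num
        rw [e, norm_mul]
        calc _ ≤ 4 * Real.pi * (M : ℝ) ^ 2 * ((D * (M : ℝ) ^ p *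
              Real.exp (M * (wr (C.r i) (C.gm v1 ε i x)).re)) * ‖C.gm' v1 ε i x‖) := by
              gcongr
          _ = _ := by rw [pow_add]; ring)
  exact ⟨D, hD, p, fun M hM i x => hb i M hM x⟩

/-- The kernels with large indices. -/
theorem K4_bound (hn : 2 ≤ n) (hh : 1 ≤ h) (hh' : 2 * h ≤ n) (hC : C.Crit)
    (hs : ∀ i ∉ C.Op, C.s i = 1 ∨ C.s i = -1) (hE : C.Edg v1 lam)
    (H : C.LowH v1 lam t g0 ρ)
    (hkk : ∃ ε0 : ℝ, 0 < ε0 ∧ (∀ i ∈ C.Op, ε0 ≤ bl (C.θ i) (v1 i)) ∧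
      ∃ D : ℝ, 0 < D ∧ ∃ p : ℕ, ∀ᶠ M : ℕ in atTop, ∀ (j : Fin m) (ε : ℝ) (x : C.Op → ℝ),
        0 < ε → ε ≤ ε0 → ‖kkF C (fun j => Kq n h (et P j) (P (Tr.par j)) (P j.succ)) v1 ε M j x‖ ≤
          D * (M : ℝ) ^ p * Real.exp (M * C.ka v1 lam ε j x)) : ∃ ε : ℝ, 0 < ε ∧ (∀ i ∈ C.Op, ε ≤ bl (C.θ i) (v1 i)) ∧
      ∃ D : ℝ, 0 < D ∧ ∃ p : ℕ, ∀ᶠ M : ℕ in atTop, ∀ (L : Finset (Fin m)), ∀ j ∉ L,
        ∀ x : C.Op → ℝ, ‖Kq n h (et P j) (P (Tr.par j)) (P j.succ) M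
          (C.sv (Tr.par j) (pt4 C P v1 ε L n M x (Tr.par j)))
          (C.sv j.succ (pt4 C P v1 ε L n M x j.succ))‖ ≤ D * (M : ℝ) ^ p *
            Real.exp (M * C.kL v1 lam t g0 0 L j (pt4 C P v1 ε L n M x)) := by
  classical
  obtain ⟨η, hη, K1, hK1, p1, h1⟩ := low_bound4
    (K := fun j => Kq n h (et P j) (P (Tr.par j)) (P j.succ))
    (fun j => Kq_KB hn hh hh' _ _ _) H
  obtain ⟨ε0, hε0, hbl0, K2, hK2, p2, h2⟩ := hkk
  set ε : ℝ := min ε0 η with hεd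
  have hε : 0 < ε := lt_min hε0 hη
  have hbl : ∀ i ∈ C.Op, ε ≤ bl (C.θ i) (v1 i) := fun i hi => (min_le_left _ _).trans (hbl0 i hi)
  refine ⟨ε, hε, hbl, K1 + K2, by linarith, p1 + p2, ?_⟩
  filter_upwards [h1, h2, eventually_ge_atTop (5 * n)] with M h1 hM2 hM3 L j hj x
  have hM1 : 1 ≤ M := by omega
  have hMr : (1 : ℝ) ≤ M := by exact_mod_cast hM1
  -- the points
  have P1 : ∀ i, i ∈ C.Op → |(pt4 C P v1 ε L n M x i).re| ≤ 1 / 2 ∧
      0 ≤ (pt4 C P v1 ε L n M x i).im := by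
    intro i hi
    unfold pt4
    rw [dif_pos hi]
    by_cases hT : C.Tv L i
    · rw [if_pos hT]
      have h := vT4_mem hn (kX_pos (P := P i) hn hM3) (x ⟨i, hi⟩)
      exact ⟨rlow_abs h, h.1.ge⟩
    · rw [if_neg hT]
      exact ⟨gam_re (hC.th0 i hi) (hC.th1 i hi) (hE.v0 i hi) (hE.vh i hi) hε _,
        (gam_im (hC.th0 i hi) (hC.th1 i hi) (hE.v0 i hi) (hE.vh i hi) hε (hbl i hi) _).1.le⟩
  have P2 : ∀ i, ∃ v0 ∈ C.sT v1 (decide (C.Tv L i)) i,
      ‖pt4 C P v1 ε L n M x i - v0‖ ≤ η := by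
    intro i
    by_cases hi : i ∈ C.Op
    · by_cases hT : C.Tv L i
      · refine ⟨vT4 n (P i) M (x ⟨i, hi⟩), ?_, ?_⟩
        · unfold Cfg.sT
          simp only [hT, decide_true, if_true]
          have h := vT4_mem hn (kX_pos (P := P i) hn hM3) (x ⟨i, hi⟩)
          exact ⟨h.1, rlow_abs h⟩
        · unfold pt4
          rw [dif_pos hi, if_pos hT, sub_self, norm_zero]
          exact hη.le
      · obtain ⟨v, hv, hd⟩ := gam_near (hC.th0 i hi) (hC.th1 i hi) (hE.v0 i hi) (hE.vh i hi) hε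
          (hbl i hi) (x ⟨i, hi⟩)
        refine ⟨v, ?_, ?_⟩
        · unfold Cfg.sT
          simp only [hT, decide_false, Bool.false_eq_true, if_false]
          exact ⟨fun _ => hv, fun h => absurd hi h⟩
        · unfold pt4
          rw [dif_pos hi, if_neg hT]
          exact hd.trans (min_le_right _ _)
    · have hT : ¬ C.Tv L i := fun h => hi h.1
      refine ⟨0, ?_, ?_⟩
      · unfold Cfg.sT
        simp only [hT, decide_false, Bool.false_eq_true, if_false]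
        exact ⟨fun h => absurd h hi, fun _ => rfl⟩
      · unfold pt4
        rw [dif_neg hi, sub_zero, norm_zero]
        exact hη.le
  have o1 := Cfg.sv_ok hs (i := (Tr.par j)) (v := pt4 C P v1 ε L n M x (Tr.par j))
    fun h => (P1 _ h).1
  have o2 := Cfg.sv_ok hs (i := j.succ) (v := pt4 C P v1 ε L n M x j.succ)
    fun h => (P1 _ h).1
  have n1 := Cfg.sv_nn (C := C) (i := (Tr.par j)) (v := pt4 C P v1 ε L n M x (Tr.par j))
    fun h => (P1 _ h).2
  have n2 := Cfg.sv_nn (C := C) (i := j.succ) (v := pt4 C P v1 ε L n M x j.succ)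
    fun h => (P1 _ h).2
  have e2 : C.kL v1 lam t g0 0 L j (pt4 C P v1 ε L n M x) =
      C.Fc j + C.lT v1 lam t g0 (decide (C.Tv L (Tr.par j))) j (Tr.par j)
        (pt4 C P v1 ε L n M x (Tr.par j)) +
      C.lT v1 lam t g0 (decide (C.Tv L j.succ)) j j.succ
        (pt4 C P v1 ε L n M x j.succ) := by
    unfold Cfg.kL; rw [if_neg hj]
  by_cases hc : C.Tv L (Tr.par j) ∨ C.Tv L j.succ
  · rw [e2]
    refine (h1 (j, decide (C.Tv L (Tr.par j)), decide (C.Tv L j.succ)) ?_ ?_ ?_ _ _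
      (P2 _) (P2 _) o1 o2 n1 n2).trans (low_pow_le hMr hK1 (by linarith) (by omega))
    · intro h
      exact (of_decide_eq_true h).1
    · intro h
      exact (of_decide_eq_true h).1
    · rcases hc with h | h
      · exact Or.inl (decide_eq_true h)
      · exact Or.inr (decide_eq_true h)
  · rw [not_or] at hc
    have key : ∀ i, ¬ C.Tv L i → pt4 C P v1 ε L n M x i = C.ptx (C.gm v1 ε) x i := by
      intro i hi
      unfold pt4 Cfg.ptx
      by_cases h : i ∈ C.Op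
      · rw [dif_pos h, dif_pos h, if_neg hi]
      · rw [dif_neg h, dif_neg h]
    have e4 : C.kL v1 lam t g0 0 L j (pt4 C P v1 ε L n M x) = C.ka v1 lam ε j x := by
      have key2 : ∀ i, ¬ C.Tv L i → C.lT v1 lam t g0 (decide (C.Tv L i)) j i
          (pt4 C P v1 ε L n M x i) =
          (if h : i ∈ C.Op then C.lw v1 lam j i (C.gm v1 ε i (x ⟨i, h⟩)) else 0) := by
        intro i hi
        unfold Cfg.lT
        simp only [hi, decide_false, Bool.false_eq_true, if_false]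
        rw [key i hi]
        unfold Cfg.ptx
        by_cases h : i ∈ C.Op
        · rw [dif_pos h, dif_pos h]
        · rw [dif_neg h, dif_neg h]
          unfold Cfg.lw
          rw [if_neg h]
      rw [e2, key2 _ hc.1, key2 _ hc.2]
      rfl
    have e3 : Kq n h (et P j) (P (Tr.par j)) (P j.succ) M
        (C.sv (Tr.par j) (pt4 C P v1 ε L n M x (Tr.par j)))
        (C.sv j.succ (pt4 C P v1 ε L n M x j.succ)) =
        kkF C (fun j => Kq n h (et P j) (P (Tr.par j)) (P j.succ)) v1 ε M j x := by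
      unfold kkF
      rw [Cfg.slx_eq, Cfg.slx_eq, key _ hc.1, key _ hc.2]
    rw [e3, e4]
    exact (hM2 j ε x hε (min_le_left _ _)).trans
      (low_pow_le hMr hK2 (by linarith) (by omega))

end Pool.Agent.AT.SU.OR
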