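import Pool.Agent.OR.G.LowA
import Pool.Agent.OR.G.LowB

/-!
# Trees, `SU(n)`: the small indices
-/

set_option autoImplicit false
set_option linter.unusedSectionVars false

namespace Pool.Agent.AT.SU.OR

open Pool.Agent.H63.VC hiding ext
open Pool.Agent.H63.VC3 Pool.Agent.H63.VC7 Pool.Agent.H25.RK Pool.Agent.S3 Pool.Agent.H63.GO
open Pool.Agent.AT Pool.Agent.S4 Pool.Agent.S4.LowG
open Complex Filter Topology MeasureTheory
open scoped BigOperators Interval

variable {m : ℕ} [Tr m] {C : Cfg m} {n h : ℕ}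

/-- The small indices do not contribute (`hkk` is `kkF_bd` for the kernels of the invariant). -/
theorem low_main4_of (hn : 2 ≤ n) (hh : 1 ≤ h) (hh' : 2 * h ≤ n) (P : Fin (m + 1) → Bool)
    (hC : C.Crit) (hs : ∀ i ∉ C.Op, C.s i = 1 ∨ C.s i = -1) (hr : ∀ i, i ∉ C.Op → C.r i = C.s i)
    (hinc : ∀ i ∉ C.Op, ∃ j, inc (Tr.par (m := m)) Fin.succ i = {j})
    (hP : ∀ i, i ∉ C.Op → P i = false → sn P i = 0)
    {v1 : Fin (m + 1) → ℝ} {lam : Fin m → Fin (m + 1) → ℝ} {t : Fin (m + 1) → ℂ}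
    {g0 : ℝ} {ρ : Fin (m + 1) → ℝ} (hE : C.Edg v1 lam) (H : C.LowH v1 lam t g0 ρ)
    (hkk : ∃ ε0 : ℝ, 0 < ε0 ∧ (∀ i ∈ C.Op, ε0 ≤ bl (C.θ i) (v1 i)) ∧
      ∃ D : ℝ, 0 < D ∧ ∃ p : ℕ, ∀ᶠ M : ℕ in atTop, ∀ (j : Fin m) (ε : ℝ) (x : C.Op → ℝ),
        0 < ε → ε ≤ ε0 → ‖kkF C (fun j => Kq n h (et P j) (P (Tr.par j)) (P j.succ)) v1 ε M j x‖ ≤
          D * (M : ℝ) ^ p * Real.exp (M * C.ka v1 lam ε j x)) :
    ∃ δ : ℝ, 0 < δ ∧ ∃ D : ℝ, 0 < D ∧ ∃ p : ℕ, ∀ᶠ M : ℕ in atTop,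
      ‖JG4 P C.r n h M - J04 P C.r n h M‖ ≤ D * (M : ℝ) ^ p * Real.exp (M * (C.e0 - δ)) := by
  classical
  obtain ⟨δ, hδ0, -, -, -, hδ⟩ := low_choose (J := Fin m) (P := fun j η _ _ =>
      C.cr g0 ρ (Tr.par j) + C.cr g0 ρ j.succ + η ≤ C.Lt j (t (Tr.par j)) (t j.succ))
    (fun j η η' _ _ _ _ h _ hη _ _ => by linarith)
    (fun j => ⟨C.Lt j (t (Tr.par j)) (t j.succ) - C.cr g0 ρ (Tr.par j) - C.cr g0 ρ j.succ,
      by linarith [H.bad j], 1, one_pos, 0, by linarith⟩)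
  obtain ⟨ε, hε, hbl, Kk, hKk, pk, hk⟩ := K4_bound hn hh hh' hC hs hE H hkk
  obtain ⟨Kl, hKl, pl, hl⟩ := K4_low (C := C) (P := P) (v1 := v1) hn hh hh' hs
  refine ⟨δ, hδ0, ?_⟩
  have key : ∀ L ∈ (Finset.univ : Finset (Finset (Fin m))).erase ∅, ∃ K : ℝ, 0 < K ∧ ∃ p : ℕ,
      ∀ᶠ M : ℕ in atTop, ‖JS4 P C.r n h M (SL4 n M L)‖ ≤ K * (M : ℝ) ^ p *
        Real.exp (M * (C.e0 - δ)) := by
    intro L hL
    have hL' : L ≠ ∅ := Finset.ne_of_mem_erase hL
    obtain ⟨Kg, hKg, pg, hg⟩ := g4_bound (P := P) hn hh hh' hC hE hε hbl L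
    obtain ⟨K, hK0, p, hb⟩ := low_abs' (ι := C.Op) (ε := Fin m)
      (g := fun M i x => g4 C P v1 ε L n h M i x)
      (K := fun M j x => ∑ κ ∈ SL4 n M L j, (w4 n h (et P j) M (κ - (n - 2)) : ℂ) *
        (sgx C.Op (s4 C P v1 ε L n h M) (s40 C P n h M) x (Tr.par j) j κ *
          sgx C.Op (s4 C P v1 ε L n h M) (s40 C P n h M) x j.succ j κ))
      (ga := fun _ i x => ga2 C v1 ε L i x)
      (ka := fun M j x => C.kL v1 lam t g0 0 L j (pt4 C P v1 ε L n M x))
      (w := fun i x => w2 C v1 ε L i x) (e := C.e0 - δ)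
      (fun i => by
        unfold w2
        by_cases hT : C.Tv L i
        · simp only [if_pos hT]
          exact integrable_inv_one_add_sq
        · simp only [if_neg hT]
          exact (gam_ctr (hC.th0 i i.2) (hC.th1 i i.2) (hE.v0 i i.2) (hE.vh i i.2)
            hε).int.norm)
      (fun i x => w2_nn ε L i x)
      ⟨Kg, hKg, pg, by
        filter_upwards [eventually_ge_atTop 1] with M hM i x
        exact hg M hM i x⟩
      ⟨Kk + Kl, by linarith, pk + pl, by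
        filter_upwards [hk, hl, eventually_ge_atTop 1] with M hMk hMl hM1 j x
        have hMr : (1 : ℝ) ≤ M := by exact_mod_cast hM1
        by_cases hj : j ∈ L
        · have e1 : C.kL v1 lam t g0 0 L j (pt4 C P v1 ε L n M x) = 0 := by
            unfold Cfg.kL; rw [if_pos hj, mul_zero]
          rw [e1]
          refine (hMl ε L j hj x).trans ?_
          rw [mul_zero, Real.exp_zero, mul_one]
          have := low_pow_le (e := 0) hMr hKl (by linarith : Kl ≤ Kk + Kl)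
            (by omega : pl ≤ pk + pl)
          simpa using this
        · rw [K4_high hj]
          exact (hMk L j hj x).trans (low_pow_le hMr hKk (by linarith) (by omega))⟩
      (by
        filter_upwards [eventually_ge_atTop (5 * n)] with M hM3 x
        have h1 := Cfg.kL_sum hC hE H (μ := 0) (μ' := 0) (δ := δ) le_rfl (by linarith) hδ hL'
          (pt4 C P v1 ε L n M x) (fun i => ga2 C v1 ε L i (x i)) ?_
        · simpa using h1
        · intro i
          constructor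
          · intro hT
            unfold ga2
            rw [if_pos hT]
          · intro hT
            unfold ga2 pt4
            rw [if_neg hT, dif_pos i.2, if_neg hT])
    refine ⟨K, hK0, p, ?_⟩
    filter_upwards [hb, eventually_ge_atTop (5 * n)] with M hM hM5
    rw [JS4_eq2 hn hh hh' hC hs hr hE hinc hP hε L hM5]
    exact hM
  obtain ⟨K, hK0, p, h1⟩ := low_sum _ key
  refine ⟨K, hK0, p, ?_⟩
  filter_upwards [h1, eventually_ge_atTop (5 * n)] with M hM hM5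
  rw [JG4_sub P C.r hn hM5]
  exact hM

end Pool.Agent.AT.SU.OR
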