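import Pool.Agent.OR.G.J0
import Pool.Agent.OR.G.Low
import Pool.Agent.AT.SU.Lim

/-!
# The asymptotics at the root of unity, for a tree with types of the twist regions
-/

set_option autoImplicit false
set_option linter.unusedSectionVars false

namespace Pool.Agent.AT.SU.OR

open Pool.Agent.S4
open Pool.Agent.H63.VC hiding ext
open Pool.Agent.H63.VC3 Pool.Agent.H63.VC7 Pool.Agent.H25.RK Pool.Agent.S3 Pool.Agent.H63.GO
open Complex Filter Topology MeasureTheory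
open scoped BigOperators Interval

variable {m : ℕ} [Tr m] {n h : ℕ}

/-- The main part and a small rest. -/
private theorem lim_rest {F J0 J : ℕ → ℂ} (hF : ∀ M, ‖F M‖ = 1) {E : ℝ} (hE0 : 0 ≤ E) (W : ℂ)
    {c : ℂ} (hJ0 : Tendsto (fun M : ℕ => F M * J0 M / ((((M : ℝ) ^ E : ℝ) : ℂ) *
      exp (M * W))) atTop (𝓝 c))
    (hlow : ∃ δ : ℝ, 0 < δ ∧ ∃ (D : ℝ) (p : ℕ), ∀ᶠ M : ℕ in atTop,
      ‖J M - J0 M‖ ≤ D * (M : ℝ) ^ p * Real.exp (M * (W.re - δ))) :
    Tendsto (fun M : ℕ => F M * J M / ((((M : ℝ) ^ E : ℝ) : ℂ) * exp (M * W))) atTop (𝓝 c) := by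
  obtain ⟨δ, hδ, K, p, hev⟩ := hlow
  have hz : Tendsto (fun M : ℕ => F M * (J M - J0 M) /
      ((((M : ℝ) ^ E : ℝ) : ℂ) * exp (M * W))) atTop (𝓝 0) := by
    have hb : ∀ᶠ M : ℕ in atTop, ‖F M * (J M - J0 M) /
        ((((M : ℝ) ^ E : ℝ) : ℂ) * exp (M * W))‖ ≤ |K| * ((M : ℝ) ^ p * Real.exp (-(δ * M))) := by
      filter_upwards [hev, eventually_gt_atTop 0] with M h1 hM
      have hM1 : (1 : ℝ) ≤ M := by exact_mod_cast hM
      have hMp : (0 : ℝ) < M := by linarith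
      rw [norm_div, norm_mul, hF, one_mul, norm_mul, Complex.norm_real,
        Real.norm_of_nonneg (Real.rpow_pos_of_pos hMp _).le, Complex.norm_exp]
      have h2 : ((M : ℂ) * W).re = M * W.re := by
        rw [← Complex.ofReal_natCast, Complex.re_ofReal_mul]
      rw [h2]
      have h3 : (1 : ℝ) ≤ (M : ℝ) ^ E := Real.one_le_rpow hM1 hE0
      have h4 : 0 < Real.exp (M * W.re) := Real.exp_pos _
      calc ‖J M - J0 M‖ / ((M : ℝ) ^ E * Real.exp (M * W.re))
          ≤ ‖J M - J0 M‖ / (1 * Real.exp (M * W.re)) := by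
            gcongr
        _ ≤ (|K| * (M : ℝ) ^ p * Real.exp (M * (W.re - δ))) / (1 * Real.exp (M * W.re)) := by
            gcongr
            refine h1.trans ?_
            gcongr
            exact le_abs_self K
        _ = |K| * ((M : ℝ) ^ p * Real.exp (-(δ * M))) := by
            have h5 : Real.exp (M * (W.re - δ)) = Real.exp (M * W.re) * Real.exp (-(δ * M)) := by
              rw [← Real.exp_add]; congr 1; ring
            rw [h5]
            field_simp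
    refine squeeze_zero_norm' hb ?_
    have h6 : Tendsto (fun x : ℝ => x ^ p * Real.exp (-(δ * x))) atTop (𝓝 0) := by
      have := tendsto_rpow_mul_exp_neg_mul_atTop_nhds_zero (p : ℝ) δ hδ
      refine this.congr' ?_
      filter_upwards [eventually_gt_atTop 0] with x hx
      rw [Real.rpow_natCast, neg_mul]
    have h7 := (h6.comp tendsto_natCast_atTop_atTop (α := ℕ)).const_mul |K|
    rw [mul_zero] at h7
    exact h7
  have h := hJ0.add hz
  rw [add_zero] at h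
  refine h.congr fun M => ?_
  rw [← add_div]
  congr 1
  ring

/-- **The asymptotics at the root of unity**, from the estimates of the edges and of the small
indices. -/
theorem JG4_lim_of {C : Cfg m} (hn : 2 ≤ n) (hh : 1 ≤ h) (hh' : 2 * h ≤ n)
    (P : Fin (m + 1) → Bool) (hC : C.Crit)
    (hcs : ∀ i, i ∉ C.Op → C.s i = 1 ∨ C.s i = -1) (hr : ∀ i, i ∉ C.Op → C.r i = C.s i)
    (hinc : ∀ i, i ∉ C.Op → ∃ j, inc (Tr.par (m := m)) Fin.succ i = {j})
    (hP : ∀ i, i ∉ C.Op → P i = false → sn P i = 0) {v1 : Fin (m + 1) → ℝ} {lam : Fin m → Fin (m + 1) → ℝ}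
    {t : Fin (m + 1) → ℂ} {g0 : ℝ} {ρ : Fin (m + 1) → ℝ} (hE : C.Edg v1 lam)
    (H : C.LowH v1 lam t g0 ρ) :
    ∃ c : ℂ, c ≠ 0 ∧ Tendsto (fun M : ℕ =>
      (∏ i ∈ C.Op, (-1 : ℂ) ^ (M + nn n (P i) + 1)) *
      JG4 P C.r n h M / ((((M : ℝ) ^ (3 / 2 * ((m : ℝ) + 1) + m / 2) : ℝ) : ℂ) *
        exp (M * C.V (cp C.ac C.bc)))) atTop (𝓝 c) := by
  obtain ⟨c, hc, hlim⟩ := J04_lim hn hh hh' P hC hcs hr hinc hP hE
  refine ⟨c, hc, ?_⟩
  have hF : ∀ M : ℕ, ‖∏ i ∈ C.Op, (-1 : ℂ) ^ (M + nn n (P i) + 1)‖ = 1 := by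
    intro M
    rw [_root_.norm_prod]
    refine Finset.prod_eq_one fun i _ => ?_
    rw [norm_pow, norm_neg, norm_one, one_pow]
  refine lim_rest hF (by positivity) _ hlim ?_
  have hch := chH4 (C := C) hn hh hh' P hC hcs
  obtain ⟨δ, hδ, D, -, p, hb⟩ := low_main4_of hn hh hh' P hC hcs hr hinc hP hE H
    (kkF_bd hch.kb hch.kl hch.kf hC hcs hE)
  refine ⟨δ, hδ, D, p, ?_⟩
  filter_upwards [hb] with M hM
  rw [AT.JLim_V_re hC]
  exact hM

end Pool.Agent.AT.SU.OR
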