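import Pool.Agent.OR.G.Defs
import Pool.Agent.S3.Low2
import Pool.Agent.S4.G.LowA

/-!
# The small indices: the partition of the multi-indices
-/

set_option autoImplicit false

namespace Pool.Agent.AT.SU.OR

set_option linter.unusedSectionVars false

open Pool.Agent.H63.VC hiding ext
open Pool.Agent.H63.VC3 Pool.Agent.H63.VC7 Pool.Agent.H25.RK Pool.Agent.S3 Pool.Agent.H63.GO
open Pool.Agent.S4
open Complex Filter Topology MeasureTheory
open scoped BigOperators Interval

variable {m : ℕ} [Tr m] {n h : ℕ}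

theorem JG4_eq (P : Fin (m + 1) → Bool) (r : Fin (m + 1) → ℝ) (hn : 2 ≤ n) {M : ℕ}
    (hM : n ≤ M) : JG4 P r n h M = JS4 P r n h M (fun _ => Finset.Ico (n - 2) M) := by
  unfold JG4 JS4
  refine Finset.sum_nbij' (fun k j => k j + (n - 2)) (fun κ j => κ j - (n - 2)) ?_ ?_ ?_ ?_ ?_
  · intro k hk
    rw [Fintype.mem_piFinset] at hk ⊢
    intro j
    have := Finset.mem_range.1 (hk j)
    exact Finset.mem_Ico.2 ⟨by omega, by omega⟩
  · intro κ hκ
    rw [Fintype.mem_piFinset] at hκ ⊢
    intro j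
    have := Finset.mem_Ico.1 (hκ j)
    exact Finset.mem_range.2 (by omega)
  · intro k _
    funext j
    simp
  · intro κ hκ
    rw [Fintype.mem_piFinset] at hκ
    funext j
    have := Finset.mem_Ico.1 (hκ j)
    show κ j - (n - 2) + (n - 2) = κ j
    omega
  · intro k _
    have e : (fun j : Fin m => k j + (n - 2) - (n - 2)) = k := by
      funext j
      omega
    simp only [Nat.add_sub_cancel]

theorem JS4_empty (P : Fin (m + 1) → Bool) (r : Fin (m + 1) → ℝ) (M : ℕ) :
    JS4 P r n h M (SL4 n M ∅) = J04 P r n h M := by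
  unfold J04 SL4
  simp

theorem JG4_sub (P : Fin (m + 1) → Bool) (r : Fin (m + 1) → ℝ) (hn : 2 ≤ n) {M : ℕ}
    (hM : 5 * n ≤ M) : JG4 P r n h M - J04 P r n h M =
      ∑ L ∈ (Finset.univ : Finset (Finset (Fin m))).erase ∅, JS4 P r n h M (SL4 n M L) := by
  classical
  have hk : n - 2 ≤ k0 M := by
    unfold k0
    omega
  have h1 : JG4 P r n h M = ∑ L : Finset (Fin m), JS4 P r n h M (SL4 n M L) := by
    rw [JG4_eq P r hn (by omega)]
    unfold JS4
    exact sum_piFinset_Ico hk _
  rw [h1, ← Finset.add_sum_erase _ _ (Finset.mem_univ (∅ : Finset (Fin m))), JS4_empty,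
    add_sub_cancel_left]

end Pool.Agent.AT.SU.OR
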